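import Pool.Agent.H242.GX.Stm

open Set Filter Topology
open scoped ContDiff

namespace Pool.Agent.H296.GX

open Pool.Agent.H242.GX

theorem exp_log_eighth (y : ℝ) (hy : 0 < y) :
    Real.exp ((Real.log y / 2) / 4) = y ^ ((1 : ℝ) / 8) := by
  rw [Real.rpow_def_of_pos hy]
  congr 1
  ring

theorem exp_half_log_sq (ρ : ℝ) (hρ : ρ ≠ 0) : Real.exp (Real.log (ρ ^ 2) / 2) = |ρ| := by
  have h : Real.log (ρ ^ 2) / 2 = Real.log |ρ| := by
    rw [← sq_abs, Real.log_pow]
    push_cast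
    ring
  rw [h, Real.exp_log (abs_pos.mpr hρ)]

theorem gx_CORR2 (hLM : S_LM) (hCUT : S_CUT) (hFLATMUL : S_FLATMUL) (hFLATEXT : S_FLATEXT) :
    S_CORR2 := by
  intro X Z hW lam s₁ g hlam hs₁ hg1 hg2
  obtain ⟨χ, hχs, hχ0, hχ1, hχb⟩ := hCUT
  obtain ⟨hL1, hL2, hL3⟩ := hLM X Z lam hW hlam
  obtain ⟨w₀, hw₀, hf1, hf2⟩ := hFLATMUL χ g (Lm Z lam) (2 * Real.pi + 1) s₁ (by linarith)
    hχs hχ0 hχb hg1 hg2 hL1 hL2 hL3
  have hF := hFLATEXT (fun x => χ x * g (Lm Z lam x)) w₀ hf1 hf2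
  set F : ℝ × ℝ → ℝ := fun x : ℝ × ℝ => if 0 < x.2 then
    (fun x => χ x * g (Lm Z lam x)) (x.1, Real.log x.2 / 2) else 0 with hFdef
  set E : ℝ := Real.exp (2 * w₀) with hE
  have hE0 : 0 < E := Real.exp_pos _
  set b : ℝ → ℝ := fun y => Real.smoothTransition (2 - 4 * y / E) with hb
  have hbs : ContDiff ℝ ∞ b := by
    rw [hb]
    exact Real.smoothTransition.contDiff.comp (by fun_prop)
  have hb1 : ∀ y, y ≤ E / 4 → b y = 1 := by
    intro y hy
    rw [hb]
    apply Real.smoothTransition.one_of_one_le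
    have : 4 * y / E ≤ 1 := by
      rw [div_le_iff₀ hE0]
      linarith
    linarith
  have hb0 : ∀ y, E / 2 ≤ y → b y = 0 := by
    intro y hy
    rw [hb]
    apply Real.smoothTransition.zero_of_nonpos
    have : 2 ≤ 4 * y / E := by
      rw [le_div_iff₀ hE0]
      linarith
    linarith
  have hFpos : ∀ φ y : ℝ, 0 < y → F (φ, y) = χ (φ, Real.log y / 2) * g (Lm Z lam (φ, Real.log y / 2)) := by
    intro φ y hy
    rw [hFdef]
    simp only [hy, if_true]
  have hFneg : ∀ φ y : ℝ, y ≤ 0 → F (φ, y) = 0 := by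
    intro φ y hy
    rw [hFdef]
    simp only [not_lt.mpr hy, if_false]
  refine ⟨fun x => b x.2 * F x, ?_, ?_, ?_, ?_⟩
  · rw [contDiff_iff_contDiffAt]
    intro x
    by_cases hx : x.2 < E
    · have hopen : IsOpen {x : ℝ × ℝ | x.2 < E} := isOpen_lt continuous_snd continuous_const
      have h1 : ContDiffAt ℝ ∞ F x := hF.contDiffAt (hopen.mem_nhds hx)
      have h2 : ContDiffAt ℝ ∞ (fun x : ℝ × ℝ => b x.2) x :=
        (hbs.comp contDiff_snd).contDiffAt
      exact h2.mul h1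
    · have hopen : IsOpen {x : ℝ × ℝ | E / 2 < x.2} := isOpen_lt continuous_const continuous_snd
      have hmem : x ∈ {x : ℝ × ℝ | E / 2 < x.2} := by
        show E / 2 < x.2
        push Not at hx
        linarith
      have h1 : (fun x : ℝ × ℝ => b x.2 * F x) =ᶠ[𝓝 x] fun _ => (0 : ℝ) := by
        filter_upwards [hopen.mem_nhds hmem] with z hz
        rw [hb0 z.2 (le_of_lt hz), zero_mul]
      exact contDiffAt_const.congr_of_eventuallyEq h1
  · intro φ y h
    simp only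
    by_cases hy : 0 < y
    · rw [hFpos φ y hy, hχ0 (φ, Real.log y / 2), zero_mul, mul_zero]
      rcases h with h | h | h
      · exact absurd hy (not_lt.mpr h)
      · left
        exact h.trans (Real.exp_pos _).le
      · right
        simp only
        have := Real.exp_pos (Real.log y / 2 / 4)
        linarith
    · rw [hFneg φ y (not_lt.mp hy), mul_zero]
  · intro φ y hy h
    simp only
    rw [hFpos φ y hy, hχ0 (φ, Real.log y / 2), zero_mul, mul_zero]
    simp only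
    rw [exp_log_eighth y hy]
    exact h
  · intro θ hθ0 hθ1
    -- the key evaluation
    have key : ∀ φ ρ : ℝ, ρ ≠ 0 → ρ ^ 2 < E / 4 → 2 * (ρ ^ 2) ^ ((1 : ℝ) / 8) < φ →
        2 * (ρ ^ 2) ^ ((1 : ℝ) / 8) < 2 * Real.pi - φ →
        b (ρ ^ 2) * F (φ, ρ ^ 2) = g ((Z (φ, |ρ|)).1, Real.log ((Z (φ, |ρ|)).2 / lam)) := by
      intro φ ρ hρ h1 h2 h3
      have hρ2 : 0 < ρ ^ 2 := by positivity
      rw [hb1 _ h1.le, one_mul, hFpos φ _ hρ2, hχ1 (φ, Real.log (ρ ^ 2) / 2), one_mul]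
      · unfold Lm
        simp only
        rw [exp_half_log_sq ρ hρ]
      · simp only
        rw [exp_log_eighth _ hρ2]
        exact h2.le
      · simp only
        rw [exp_log_eighth _ hρ2]
        exact h3.le
    have hXc : Continuous X := hW.smX.continuous
    have c1 : Continuous (fun t : ℝ => (X (θ, t)).1) := by fun_prop
    have c2 : Continuous (fun t : ℝ => (X (θ, t)).2) := by fun_prop
    have c3 : Continuous (fun t : ℝ => (X (θ, t)).2 ^ 2) := c2.pow 2
    have c4 : Continuous (fun t : ℝ => 2 * ((X (θ, t)).2 ^ 2) ^ ((1 : ℝ) / 8)) :=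
      continuous_const.mul (c3.rpow_const (fun x => Or.inr (by norm_num)))
    have c5 : Continuous (fun t : ℝ => 2 * Real.pi - (X (θ, t)).1) := continuous_const.sub c1
    have a1 : (X (θ, 0)).1 = θ := by rw [hW.axis]
    have a2 : (X (θ, 0)).2 = 0 := by rw [hW.axis]
    have z8 : (0 : ℝ) ^ ((1 : ℝ) / 8) = 0 := Real.zero_rpow (by norm_num)
    have e1 : ∀ᶠ t in 𝓝 (0 : ℝ), (X (θ, t)).2 ^ 2 < E / 4 := by
      apply c3.continuousAt.eventually_lt continuousAt_const
      rw [a2]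
      simp only [ne_eq, OfNat.ofNat_ne_zero, not_false_eq_true, zero_pow]
      positivity
    have e2 : ∀ᶠ t in 𝓝 (0 : ℝ), 2 * ((X (θ, t)).2 ^ 2) ^ ((1 : ℝ) / 8) < (X (θ, t)).1 := by
      apply c4.continuousAt.eventually_lt c1.continuousAt
      rw [a1, a2]
      simp only [ne_eq, OfNat.ofNat_ne_zero, not_false_eq_true, zero_pow]
      rw [z8]
      linarith
    have e3 : ∀ᶠ t in 𝓝 (0 : ℝ),
        2 * ((X (θ, t)).2 ^ 2) ^ ((1 : ℝ) / 8) < 2 * Real.pi - (X (θ, t)).1 := by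
      apply c4.continuousAt.eventually_lt c5.continuousAt
      rw [a1, a2]
      simp only [ne_eq, OfNat.ofNat_ne_zero, not_false_eq_true, zero_pow]
      rw [z8]
      linarith
    obtain ⟨r, hr, hball⟩ := Metric.eventually_nhds_iff.mp (e1.and (e2.and e3))
    refine ⟨r, hr, fun t ht0 htr => ⟨?_, ?_⟩⟩
    · obtain ⟨k1, k2, k3⟩ := hball (y := t) (by rw [Real.dist_eq, sub_zero, abs_of_pos ht0]; exact htr)
      have hpos := hW.sgn θ t ht0
      have := key (X (θ, t)).1 (X (θ, t)).2 hpos.ne' k1 k2 k3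
      simp only
      rw [this, abs_of_pos hpos]
      have h5 : Z ((X (θ, t)).1, (X (θ, t)).2) = (θ, t) := hW.left (θ, t)
      rw [h5]
    · obtain ⟨k1, k2, k3⟩ := hball (y := -t) (by
        rw [Real.dist_eq, sub_zero, abs_neg, abs_of_pos ht0]; exact htr)
      have hneg := hW.sgn' θ (-t) (by linarith)
      have := key (X (θ, -t)).1 (X (θ, -t)).2 hneg.ne k1 k2 k3
      simp only
      rw [this, abs_of_neg hneg]
      rfl

end Pool.Agent.H296.GX
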